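import Pool.Agent.N204.HR.Stm2

/-!
# HR/KD: homological and numerical equivalence for the generated classes
-/

set_option autoImplicit false
set_option linter.unusedSectionVars false

open CategoryTheory AlgebraicGeometry TensorProduct

universe u

namespace Pool.Agent.N603.HRKD

open Module
open Pool.Agent.H914 Pool.Agent.H914.VarClass Pool.Agent.H914.VarClass.Obj
  Pool.Agent.H914.WeilCohomology
open Pool.Agent.Y133.Half (pw)
open Pool.Agent.Y121.AHS
open Pool.Agent.N996.BP (IsCoordinateMap RForm)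
open Pool.Agent.N204.RD.Raw (Coh coh ap vzero)
open Pool.Agent.N204.HR Pool.Agent.N204.HR.Raw

section Abs

variable {K : Type*} [Field K] {A : Type*} [Ring A] [Algebra K A]
  {gr : ℕ → Submodule K A} {d : ℕ} {tr : A →ₗ[K] K}

/-- An even class commutes with all classes. -/
lemma comm_all (h : IsPoincareAlgebra gr d tr) {i : ℕ} {a : A} (ha : a ∈ gr (2 * i)) (b : A) :
    a * b = b * a := by
  have h1 : b ∈ ⨆ i, gr i := by
    rw [h.isInternal.submodule_iSup_eq_top]
    trivial
  refine Submodule.iSup_induction gr (motive := fun b => a * b = b * a) h1 ?_ ?_ ?_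
  · intro j b hb
    rw [h.comm ha hb, mul_assoc, pow_mul, neg_one_sq, one_pow, one_smul]
  · rw [mul_zero, zero_mul]
  · intro x y hx hy
    rw [mul_add, add_mul, hx, hy]

/-- Poincare duality for homogeneous classes. -/
lemma nondeg_gr (h : IsPoincareAlgebra gr d tr) {v : A} {i j : ℕ} (hv : v ∈ gr i)
    (hij : i + j = 2 * d) (hz : ∀ y ∈ gr j, tr (v * y) = 0) : v = 0 := by
  apply h.nondeg
  intro b
  have h1 : b ∈ ⨆ i, gr i := by
    rw [h.isInternal.submodule_iSup_eq_top]
    trivial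
  refine Submodule.iSup_induction gr (motive := fun b => tr (v * b) = 0) h1 ?_ ?_ ?_
  · intro l b hb
    by_cases hl : l = j
    · subst hl
      exact hz b hb
    · exact h.tr_eq_zero (h.mul_mem hv hb) (by omega)
  · rw [mul_zero, map_zero]
  · intro x y hx hy
    rw [mul_add, map_add, hx, hy, add_zero]

lemma pow_mem_gr (h : IsPoincareAlgebra gr d tr) {L : A} (hL : L ∈ gr 2) (r : ℕ) :
    L ^ r ∈ gr (2 * r) := by
  induction r with
  | zero => rw [pow_zero, mul_zero]; exact h.one_mem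
  | succ r ih =>
    rw [pow_succ]
    exact h.mul_mem ih hL

/-- The hard Lefschetz theorem: injectivity implies surjectivity. -/
lemma lef_surj (h : IsPoincareAlgebra gr d tr) {L : A} (hL : L ∈ gr 2) {i r : ℕ} (hir : i + r = d)
    (hinj : ∀ x ∈ gr i, L ^ r * x = 0 → x = 0) {w : A} (hw : w ∈ gr (2 * r + i)) :
    ∃ x ∈ gr i, L ^ r * x = w := by
  have hfin : Module.Finite K A := h.finite
  have hmem : ∀ x ∈ gr i, L ^ r * x ∈ gr (2 * r + i) := fun x hx =>
    h.mul_mem (pow_mem_gr h hL r) hx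
  set φ : gr i →ₗ[K] Module.Dual K (gr i) :=
    LinearMap.mk₂ K (fun x y : gr i => tr (L ^ r * (x : A) * (y : A)))
      (fun x x' y => by
        rw [Submodule.coe_add, mul_add, add_mul, map_add])
      (fun c x y => by
        rw [Submodule.coe_smul, mul_smul_comm, smul_mul_assoc, map_smul])
      (fun x y y' => by
        rw [Submodule.coe_add, mul_add, map_add])
      (fun c x y => by
        rw [Submodule.coe_smul, mul_smul_comm, map_smul]) with hφ
  have hφa : ∀ x y : gr i, φ x y = tr (L ^ r * (x : A) * (y : A)) := fun x y => rfl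
  have hinj' : Function.Injective φ := by
    rw [← LinearMap.ker_eq_bot, LinearMap.ker_eq_bot']
    intro x hx
    apply Subtype.ext
    apply hinj x x.2
    refine nondeg_gr h (hmem x x.2) (j := i) (by omega) fun y hy => ?_
    rw [← hφa x ⟨y, hy⟩, hx]
    rfl
  have hdim : Module.finrank K (gr i) = Module.finrank K (Module.Dual K (gr i)) :=
    (Subspace.dual_finrank_eq).symm
  have hsurj := (LinearMap.injective_iff_surjective_of_finrank_eq_finrank hdim).1 hinj'
  obtain ⟨x, hx⟩ := hsurj ((tr ∘ₗ LinearMap.mulLeft K w) ∘ₗ (gr i).subtype)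
  refine ⟨x, x.2, ?_⟩
  rw [← sub_eq_zero]
  refine nondeg_gr h (Submodule.sub_mem _ (hmem x x.2) hw) (j := i) (by omega) fun y hy => ?_
  have h1 := LinearMap.congr_fun hx ⟨y, hy⟩
  rw [hφa] at h1
  rw [sub_mul, map_sub, sub_eq_zero]
  exact h1

/-- **Homological and numerical equivalence.** -/
theorem kd_abs (h : IsPoincareAlgebra gr d tr) {L : A} (hL : L ∈ gr 2) (G : ℕ → A → Prop)
    (gmem : ∀ j x, G j x → x ∈ gr (2 * j)) (gadd : ∀ j x y, G j x → G j y → G j (x + y))
    (gneg : ∀ j x, G j x → G j (-x)) (gmul : ∀ j x, G j x → G (j + 1) (L * x))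
    (ginj : ∀ j, 2 * j ≤ d → ∀ x ∈ gr (2 * j), L ^ (d - 2 * j) * x = 0 → x = 0)
    (ginv : ∀ j, 2 * j ≤ d → ∀ x ∈ gr (2 * j), G (d - j) (L ^ (d - 2 * j) * x) → G j x)
    (gpos : ∀ j x, G j x → 2 * j ≤ d → L ^ (d - 2 * j + 1) * x = 0 →
      tr (L ^ (d - 2 * j) * x * x) = 0 → x = 0) :
    ∀ i j, i + j = d → ∀ x, G j x → (∀ y, G i y → tr (y * x) = 0) → x = 0 := by
  have hL1 : L ∈ gr (2 * 1) := hL
  have hLc : ∀ b, L * b = b * L := fun b => comm_all h hL1 b
  have hLp : ∀ r b, L ^ r * b = b * L ^ r := fun r b => comm_all h (pow_mem_gr h hL r) b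
  have gpow : ∀ r j x, G j x → G (j + r) (L ^ r * x) := by
    intro r
    induction r with
    | zero =>
      intro j x hx
      rwa [pow_zero, one_mul]
    | succ r ih =>
      intro j x hx
      have h1 := gmul _ _ (ih j x hx)
      rwa [← mul_assoc, ← pow_succ'] at h1
  -- the inverse of the Lefschetz operator
  have ha : ∀ j, 2 * j ≤ d → ∀ w, G (d - j) w → ∃ x, G j x ∧ L ^ (d - 2 * j) * x = w := by
    intro j hj w hw
    have h1 := gmem _ _ hw
    have h2 : 2 * (d - j) = 2 * (d - 2 * j) + 2 * j := by omega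
    rw [h2] at h1
    obtain ⟨x, hx, hxw⟩ := lef_surj h hL (i := 2 * j) (r := d - 2 * j) (by omega) (ginj j hj) h1
    refine ⟨x, ginv j hj x hx ?_, hxw⟩
    rwa [hxw]
  -- the lower half
  have hc : ∀ j, 2 * j ≤ d → ∀ x, G j x →
      (∀ z, G j z → tr (L ^ (d - 2 * j) * x * z) = 0) → x = 0 := by
    intro j
    induction j with
    | zero =>
      intro hj x hx hz
      refine gpos 0 x hx hj ?_ (hz x hx)
      have h1 := h.mul_mem (pow_mem_gr h hL (d - 2 * 0 + 1)) (gmem 0 x hx)
      rw [h.gr_eq_bot _ (by omega)] at h1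
      exact (Submodule.mem_bot K).1 h1
    | succ j ih =>
      intro hj x hx hz
      have h1 := gpow (d - 2 * (j + 1) + 1) (j + 1) x hx
      have h2 : j + 1 + (d - 2 * (j + 1) + 1) = d - j := by omega
      rw [h2] at h1
      obtain ⟨y, hy, hyx⟩ := ha j (by omega) _ h1
      have e1 : d - 2 * j = (d - 2 * (j + 1) + 1) + 1 := by omega
      obtain ⟨x0, hx0⟩ : ∃ x0, x0 = x + -(L * y) := ⟨_, rfl⟩
      have g0 : G (j + 1) x0 := by
        rw [hx0]
        exact gadd _ _ _ hx (gneg _ _ (gmul _ _ hy))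
      have p0 : L ^ (d - 2 * (j + 1) + 1) * x0 = 0 := by
        rw [hx0, mul_add, mul_neg, ← mul_assoc, ← pow_succ, ← e1, hyx, add_neg_cancel]
      have hxe : x = x0 + L * y := by
        rw [hx0]
        abel
      have z0 : x0 = 0 := by
        refine gpos (j + 1) x0 g0 hj p0 ?_
        have h3 := hz x0 g0
        rw [hxe, mul_add, add_mul, map_add] at h3
        have h4 : L ^ (d - 2 * (j + 1)) * (L * y) * x0 = 0 := by
          rw [← mul_assoc, ← pow_succ, hLp, mul_assoc, p0, mul_zero]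
        rw [h4, map_zero, add_zero] at h3
        exact h3
      rw [z0, zero_add] at hxe
      have hy0 : y = 0 := by
        refine ih (by omega) y hy fun z hz' => ?_
        have h3 := hz (L * z) (gmul _ _ hz')
        have h4 : L ^ (d - 2 * (j + 1)) * x * (L * z) = L ^ (d - 2 * j) * y * z := by
          rw [hxe, e1, pow_succ, pow_succ, ← mul_assoc, ← mul_assoc]
          congr 1
          rw [mul_assoc, mul_assoc, ← hLc y]
          simp only [mul_assoc]
        rw [h4] at h3
        exact h3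
      rw [hxe, hy0, mul_zero]
  intro i j hij x hx hy
  by_cases hj : 2 * j ≤ d
  · refine hc j hj x hx fun z hz => ?_
    have h1 := gpow (d - 2 * j) j z hz
    have h2 : j + (d - 2 * j) = i := by omega
    rw [h2] at h1
    have h3 := hy _ h1
    rwa [mul_assoc, comm_all h (gmem _ _ hz) x, ← mul_assoc] at h3
  · have hi : 2 * i ≤ d := by omega
    have h1 : d - i = j := by omega
    rw [← h1] at hx
    obtain ⟨x', hx', hxx⟩ := ha i hi x hx
    have h2 : x' = 0 := by
      refine hc i hi x' hx' fun z hz => ?_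
      rw [hxx, ← comm_all h (gmem _ _ hz) x]
      exact hy z hz
    rw [← hxx, h2, mul_zero]

end Abs

section Main

variable {k : Type u} [Field k] {𝒱 : VarClass k} {ops : CycleOps 𝒱} (T : HodgeTheory ops)
  {X : 𝒱.Obj} (ψ : RForm T.W X) (E : Type) [Field E] [Algebra T.W.K E]

/-- The iterated product is the product with the power. -/
lemma lef_eq (n : ℕ) (L x : E ⊗[T.W.K] T.W.H (pw X n)) (r : ℕ) :
    lef (coh T E ψ) n L r x = (L ^ r * x : E ⊗[T.W.K] T.W.H (pw X n)) := by
  induction r with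
  | zero =>
    rw [pow_zero, one_mul]
    rfl
  | succ r ih =>
    have h1 : lef (coh T E ψ) n L (r + 1) x =
        (coh T E ψ).mul n L (lef (coh T E ψ) n L r x) := Function.iterate_succ_apply' _ _ _
    rw [h1, ih, pow_succ', mul_assoc]
    rfl

end Main

theorem kd : S_KD.{u} := by
  intro k _ 𝒱 ops T X ψ E _ _ φ S σ n D hD hDS hmem hpos hinv
  obtain ⟨p, hp, q, hq, hdim, hinv⟩ := hinv
  have h : IsPoincareAlgebra (fun i => (T.W.gr (pw X n) i).baseChange E) (pw X n).dim
      (formBase E (T.W.tr (pw X n))) := IsPoincareAlgebra.baseChange (T.W.isPoincareAlgebra (pw X n))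
  obtain ⟨L, hL⟩ : ∃ L : E ⊗[T.W.K] T.W.H (pw X n), L = (1 : E) ⊗ₜ[T.W.K] (T.W.cl (pw X n) D) :=
    ⟨_, rfl⟩
  have hLe : emL T.W E (T.W.cl (pw X n) D) = L := hL.symm
  rw [hLe] at hpos hinv
  have hL2 : L ∈ (T.W.gr (pw X n) 2).baseChange E := by
    rw [hL]
    exact Submodule.tmul_mem_baseChange_of_mem 1 (T.W.cl_mem hD)
  have hLG : Gen (coh T E ψ) φ (Raw.ext T E S) n 1 L := by
    apply Gen.base
    exact ⟨_, hDS, hL⟩
  have hp0 : ∀ f ∈ (coh T E ψ).pull n (2 * n + 1),
      f (0 : E ⊗[T.W.K] T.W.H (pw X n)) = (0 : E ⊗[T.W.K] T.W.H (pw X (2 * n + 1))) := by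
    rintro f ⟨g, -, rfl⟩
    exact map_zero ((T.W.map g).toLinearMap.baseChange E)
  have hfo : ∀ j, 2 * j ≤ (pw X n).dim → ∃ l ∈ Raw.ext T E S (2 * n + 1) (2 * j),
      ∀ x ∈ (T.W.gr (pw X n) (2 * j)).baseChange E, ∀ z : E ⊗[T.W.K] T.W.H (pw X n),
      (coh T E ψ).tr n ((coh T E ψ).mul n z x) =
        (coh T E ψ).tr (2 * n + 1) ((coh T E ψ).mul (2 * n + 1) (q z)
          ((coh T E ψ).mul (2 * n + 1)
            (p (L ^ ((pw X n).dim - 2 * j) * x : E ⊗[T.W.K] T.W.H (pw X n))) l)) := by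
    intro j hj
    obtain ⟨l, hl, hlx⟩ := hinv (2 * j) hj
    refine ⟨l, hl, fun x hx z => ?_⟩
    rw [← lef_eq T ψ E n L x]
    exact hlx x hx z
  have key := kd_abs h hL2 (fun j x => Gen (coh T E ψ) φ (Raw.ext T E S) n j x)
    (fun j x hx => hmem n j x hx) (fun j x y hx hy => Gen.add hx hy)
    (fun j x hx => by
      have h1 := Gen.smul (-1) hx
      have h2 : (coh T E ψ).smul n ((-1 : ℚ) : E) x = (-x : E ⊗[T.W.K] T.W.H (pw X n)) := by
        have h3 : (((-1 : ℚ) : E) • x : E ⊗[T.W.K] T.W.H (pw X n)) = -x := by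
          rw [Rat.cast_neg, Rat.cast_one, neg_one_smul]
        exact h3
      rw [h2] at h1
      exact h1)
    (fun j x hx => by
      have h1 := Gen.mul hLG hx
      rw [Nat.add_comm 1 j] at h1
      exact h1)
    (fun j hj x hx hx0 => by
      obtain ⟨l, hl, hlx⟩ := hfo j hj
      apply h.nondeg
      intro b
      rw [comm_all h hx b]
      have h1 := hlx x hx b
      rw [hx0, hp0 p hp] at h1
      refine Eq.trans h1 ?_
      have h2 : ∀ c : E ⊗[T.W.K] T.W.H (pw X (2 * n + 1)), ∀ l : E ⊗[T.W.K] T.W.H (pw X (2 * n + 1)),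
          formBase E (T.W.tr (pw X (2 * n + 1))) (c * (0 * l)) = 0 := by
        intro c l
        rw [zero_mul, mul_zero, map_zero]
      exact h2 _ _)
    (fun j hj x hx hG => by
      obtain ⟨l, hl, hlx⟩ := hfo j hj
      have h1 := Gen.mul (Gen.pull hp hG) (Gen.base (φ := φ) hl)
      refine Gen.push hq h1 (fun z => hlx x hx z) ?_
      rw [hdim]
      change (pw X n).dim - j + 2 * j + (pw X n).dim = j + 2 * (pw X n).dim
      omega)
    (fun j x hx hj h0 ht => by
      by_contra hne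
      obtain ⟨r, hr, hr1⟩ := hpos j x hx hj (by
        rw [lef_eq T ψ E n L x]
        exact h0) hne σ
      rw [lef_eq T ψ E n L x] at hr1
      have h3 : (coh T E ψ).tr n ((coh T E ψ).mul n
          (L ^ ((coh T E ψ).dim n - 2 * j) * x : E ⊗[T.W.K] T.W.H (pw X n)) x) = 0 := ht
      rw [h3, map_zero, mul_zero] at hr1
      have h4 : r = 0 := by exact_mod_cast hr1.symm
      linarith)
  intro i j hij x hx hy
  exact key i j hij x hx hy

end Pool.Agent.N603.HRKD
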