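import Pool.Agent.N204.HR.Stm3

/-!
# HR/F3: the correspondence of a fixed class commutes with the Frobenius
-/

set_option autoImplicit false
set_option linter.unusedSectionVars false

open CategoryTheory AlgebraicGeometry

universe u

namespace Pool.Agent.N603.HRF3

open Pool.Agent.H914 Pool.Agent.H914.VarClass Pool.Agent.H914.VarClass.Obj
  Pool.Agent.H914.WeilCohomology
open Pool.Agent.Y133.Half (pw pfst psnd)
open Pool.Agent.N996.BP (IsCoordinateMap)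
open Pool.Agent.N211.BT (isCoord_fst isCoord_snd)
open Pool.Agent.N204.HR

section Core

variable {k : Type u} [Field k] {𝒱 : VarClass k} {ops : CycleOps 𝒱}
  (W : WeilCohomology.{u, 0} ops) {X : 𝒱.Obj} (q : ℕ) (Φ0 : W.H X → W.H X)
  (Φ1 : W.H (X.prod X) → W.H (X.prod X))

/-- push-forwards and the Frobenius -/
lemma push_frob (mul0 : ∀ x y, Φ0 (x * y) = Φ0 x * Φ0 y) (mul1 : ∀ x y, Φ1 (x * y) = Φ1 x * Φ1 y)
    (m2 : ∀ x, Φ1 (W.map (snd X X) x) = W.map (snd X X) (Φ0 x))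
    (tr0 : ∀ x, W.tr X (Φ0 x) = (q : W.K) ^ X.dim * W.tr X x)
    (tr1 : ∀ x, W.tr (X.prod X) (Φ1 x) = (q : W.K) ^ (X.dim + X.dim) * W.tr (X.prod X) x)
    (bij : Function.Surjective Φ0) (w : W.H (X.prod X)) :
    ((q : W.K) ^ X.dim) • Φ0 (W.push (snd X X) w) = W.push (snd X X) (Φ1 w) := by
  apply W.tr_ext
  intro c
  obtain ⟨c', rfl⟩ := bij c
  rw [smul_mul_assoc, map_smul, ← mul0, tr0, W.tr_push, W.tr_push, ← m2, ← mul1, tr1, smul_eq_mul,
    pow_add]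
  ring

lemma iter_frob (smul0 : ∀ (c : W.K) x, Φ0 (c • x) = c • Φ0 x)
    (h : ∀ w, ((q : W.K) ^ X.dim) • Φ0 (W.push (snd X X) w) = W.push (snd X X) (Φ1 w))
    (w : W.H (X.prod X)) (m : ℕ) :
    ((q : W.K) ^ (X.dim * m)) • Φ0^[m] (W.push (snd X X) w) = W.push (snd X X) (Φ1^[m] w) := by
  induction m with
  | zero => rw [mul_zero, pow_zero, one_smul]; rfl
  | succ m ih =>
    rw [Function.iterate_succ_apply', Function.iterate_succ_apply', ← h, ← ih, smul0, smul_smul,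
      ← pow_add]
    congr 2
    ring

lemma iter_mul {A : Type} [Mul A] (Φ : A → A) (h : ∀ x y, Φ (x * y) = Φ x * Φ y) (m : ℕ)
    (x y : A) : Φ^[m] (x * y) = Φ^[m] x * Φ^[m] y := by
  induction m with
  | zero => rfl
  | succ m ih =>
    rw [Function.iterate_succ_apply', Function.iterate_succ_apply', Function.iterate_succ_apply',
      ih, h]

lemma iter_map (m1 : ∀ x, Φ1 (W.map (fst X X) x) = W.map (fst X X) (Φ0 x)) (m : ℕ) (a : W.H X) :
    Φ1^[m] (W.map (fst X X) a) = W.map (fst X X) (Φ0^[m] a) := by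
  induction m with
  | zero => rfl
  | succ m ih =>
    rw [Function.iterate_succ_apply', Function.iterate_succ_apply', ih, m1]

lemma core (hq : (q : W.K) ≠ 0) (smul0 : ∀ (c : W.K) x, Φ0 (c • x) = c • Φ0 x)
    (mul0 : ∀ x y, Φ0 (x * y) = Φ0 x * Φ0 y) (mul1 : ∀ x y, Φ1 (x * y) = Φ1 x * Φ1 y)
    (m1 : ∀ x, Φ1 (W.map (fst X X) x) = W.map (fst X X) (Φ0 x))
    (m2 : ∀ x, Φ1 (W.map (snd X X) x) = W.map (snd X X) (Φ0 x))
    (tr0 : ∀ x, W.tr X (Φ0 x) = (q : W.K) ^ X.dim * W.tr X x)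
    (tr1 : ∀ x, W.tr (X.prod X) (Φ1 x) = (q : W.K) ^ (X.dim + X.dim) * W.tr (X.prod X) x)
    (bij : Function.Surjective Φ0) (c : W.H (X.prod X)) (m : ℕ)
    (hc : Φ1^[m] c = (q : W.K) ^ (X.dim * m) • c) (a : W.H X) :
    Φ0^[m] (W.corr c a) = W.corr c (Φ0^[m] a) := by
  have h1 := iter_frob W q Φ0 Φ1 smul0 (push_frob W q Φ0 Φ1 mul0 mul1 m2 tr0 tr1 bij)
    (c * W.map (fst X X) a) m
  rw [iter_mul Φ1 mul1, hc, iter_map W Φ0 Φ1 m1, smul_mul_assoc, map_smul] at h1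
  exact smul_right_injective _ (pow_ne_zero _ hq) h1

end Core

theorem f3 (h1 : S_F1.{u}) : S_F3.{u} := by
  intro k _ 𝒱 ops W X q Φ hΦ c m hc a
  obtain ⟨t1, t2, -⟩ := h1 k 𝒱 ops W X q Φ hΦ
  have hq : (q : W.K) ≠ 0 := by
    have := hΦ.q_pos
    exact_mod_cast this.ne'
  exact core W q (Φ 0) (Φ 1) hq (hΦ.smul 0) (hΦ.mul 0) (hΦ.mul 1)
    (fun x => hΦ.map 0 1 (pfst X 0) (isCoord_fst 0) x)
    (fun x => hΦ.map 0 1 (psnd X 0) (isCoord_snd 0) x) (fun x => t1 0 x) (fun x => t1 1 x)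
    (t2 0).2 c m hc a

end Pool.Agent.N603.HRF3
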